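import Pool.Agent.Helper65.CS.Goals2
import Pool.Agent.Helper3.DT.PTL
import Pool.Agent.Helper78.LM.As1

/-!
# Project CS, packet CNT: counting with a common unit
-/

set_option autoImplicit false

namespace Pool.Agent.Helper93.CS

open Pool.Agent.Helper81.CC Pool.Agent.Helper78.DT Pool.Agent.Helper65.CS

theorem pt_dsize {α : Type} [ToData α] {z : α → ℕ × DList} (hz : PolyTime z) :
    PolyTime fun a => dsize (z a) := by
  have h : PolyTime dsize := by
    unfold dsize
    refine PolyTime.add (by fun_prop) (PolyTime.sum ?_)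
    exact PolyTime.list_map (f := fun _ (e : List (ℕ × Bool) × Bool) => e.1.length + 1)
      (by fun_prop) (by fun_prop)
  exact PolyTime.comp h hz

theorem pt_lg {α : Type} [ToData α] {n : α → ℕ} (hn : PolyTime n) :
    PolyTime fun a => lg (n a) := by
  unfold lg
  exact PolyTime.add (Pool.Agent.Helper3.DT.pt_log hn) (PolyTime.const 2)

/-- the assignments of `n + N` variables as pairs -/
def spl (n N : ℕ) : (Fin (n + N) → Bool) ≃ (Fin n → Bool) × (Fin N → Bool) :=
  (Equiv.arrowCongr finSumFinEquiv.symm (Equiv.refl Bool)).trans (Equiv.sumArrowEquivProdArrow _ _ _)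

theorem spl_fst (n N : ℕ) (r : Fin (n + N) → Bool) (v : ℕ) (h : v < n) (h' : v < n + N) :
    (spl n N r).1 ⟨v, h⟩ = r ⟨v, h'⟩ := rfl

theorem val_spl (n N W : ℕ) (F : DList) (hF : NF n W F) (r : Fin (n + N) → Bool) :
    DList.val r F = DList.val (spl n N r).1 F := by
  induction F with
  | nil => rfl
  | cons e F ih =>
    have ih' := ih fun e he => hF e (List.mem_cons_of_mem _ he)
    unfold DList.val
    rw [ih']
    have h1 : (∀ p ∈ e.1, (if h : p.1 < n + N then r ⟨p.1, h⟩ else false) = p.2) ↔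
        (∀ p ∈ e.1, (if h : p.1 < n then (spl n N r).1 ⟨p.1, h⟩ else false) = p.2) := by
      refine forall₂_congr fun p hp => ?_
      have h2 : p.1 < n := ((hF e List.mem_cons_self).2.2 p hp).1
      rw [dif_pos h2, dif_pos (by omega : p.1 < n + N)]
      rw [spl_fst n N r p.1 h2 (by omega)]
    simp only [h1]

theorem frac_add (n N W : ℕ) (F : DList) (hF : NF n W F) : frac (n + N) F = frac n F := by
  unfold frac
  have h1 : Nat.card {r : Fin (n + N) → Bool // DList.val r F = true} =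
      Nat.card {r : Fin n → Bool // DList.val r F = true} * 2 ^ N := by
    have e1 : {r : Fin (n + N) → Bool // DList.val r F = true} ≃
        {q : (Fin n → Bool) × (Fin N → Bool) // DList.val q.1 F = true} :=
      Equiv.subtypeEquiv (spl n N) fun r => by rw [val_spl n N W F hF r]
    have e2 : {q : (Fin n → Bool) × (Fin N → Bool) // DList.val q.1 F = true} ≃
        {r : Fin n → Bool // DList.val r F = true} × (Fin N → Bool) :=
      { toFun := fun q => (⟨q.1.1, q.2⟩, q.1.2)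
        invFun := fun q => ⟨(q.1.1, q.2), q.1.2⟩
        left_inv := fun _ => rfl
        right_inv := fun _ => rfl }
    rw [Nat.card_congr (e1.trans e2), Nat.card_prod]
    simp
  rw [h1, pow_add]
  push_cast
  rw [mul_div_mul_right]
  positivity

theorem round_close (a b : ℕ) (hb : 0 < b) :
    |(((2 * a + b) / (2 * b) : ℕ) : ℝ) - (a : ℝ) / b| ≤ 1 / 2 := by
  have hb' : (0 : ℝ) < b := by exact_mod_cast hb
  have h3 := Nat.div_add_mod (2 * a + b) (2 * b)
  have h4 := Nat.mod_lt (2 * a + b) (by omega : 2 * b > 0)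
  generalize (2 * a + b) / (2 * b) = q at *
  generalize (2 * a + b) % (2 * b) = m at *
  have h5 : (2 * (b : ℝ)) * q + m = 2 * a + b := by exact_mod_cast h3
  have h6 : (m : ℝ) < 2 * b := by exact_mod_cast h4
  have h7 : (0 : ℝ) ≤ m := Nat.cast_nonneg m
  have h8 : (q : ℝ) - a / b = (b - m) / (2 * b) := by
    field_simp
    linarith
  rw [h8, abs_le]
  constructor
  · rw [le_div_iff₀ (by positivity)]
    linarith
  · rw [div_le_iff₀ (by positivity)]
    linarith

/-- the counting function with a common unit -/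
def gf (h : ℕ × DList → ℕ) (k : ℕ) (z : ℕ × DList × ℕ) : ℕ :=
  (2 * (lg z.2.2 ^ k * h (z.1 + z.2.2, z.2.1)) + lg (dsize (z.1 + z.2.2, z.2.1)) ^ (k + 1)) /
    (2 * lg (dsize (z.1 + z.2.2, z.2.1)) ^ (k + 1))

theorem pt_gf {h : ℕ × DList → ℕ} (hh : PolyTime h) (k : ℕ) : PolyTime (gf h k) := by
  have h1 : PolyTime fun z : ℕ × DList × ℕ => ((z.1 + z.2.2, z.2.1) : ℕ × DList) := by fun_prop
  have h2 : PolyTime fun z : ℕ × DList × ℕ => h (z.1 + z.2.2, z.2.1) := PolyTime.comp hh h1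
  have h3 : PolyTime fun z : ℕ × DList × ℕ => lg (dsize (z.1 + z.2.2, z.2.1)) := pt_lg (pt_dsize h1)
  have h4 : PolyTime fun z : ℕ × DList × ℕ => lg z.2.2 := pt_lg (by fun_prop)
  unfold gf
  exact PolyTime.div (PolyTime.add (PolyTime.mul (PolyTime.const 2)
    (PolyTime.mul (PolyTime.pow h4 k) h2)) (PolyTime.pow h3 (k + 1)))
    (PolyTime.mul (PolyTime.const 2) (PolyTime.pow h3 (k + 1)))

theorem cnt : Pool.Agent.Helper65.CS.CntStmt := by
  intro hc k
  obtain ⟨h, hp, hb⟩ := hc (k + 1)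
  refine ⟨gf h k, pt_gf (Pool.Agent.Helper78.LM.PT_of_comp hp) k, ?_⟩
  intro n W F N hF
  have h1 := hb (n + N) F
  have h2 : (Nat.card {r : Fin (n + N) → Bool // DList.val r F = true} : ℝ) / 2 ^ (n + N) = frac n F :=
    frac_add n N W F hF
  rw [h2] at h1
  have hN : N ≤ dsize (n + N, F) := by
    unfold dsize
    omega
  have hlg : lg N ≤ lg (dsize (n + N, F)) := by
    unfold lg
    have := Nat.log_mono_right (b := 2) hN
    omega
  have hlg2 : 2 ≤ lg N := by unfold lg; omega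
  have hD : (Nat.log 2 (dsize (n + N, F)) + 2 : ℕ) = lg (dsize (n + N, F)) := rfl
  rw [hD] at h1
  unfold gf
  simp only
  generalize lg (dsize (n + N, F)) = D at *
  generalize h (n + N, F) = a at *
  generalize lg N = L at *
  have hL0 : (2 : ℝ) ≤ L := by exact_mod_cast hlg2
  have hDL : (L : ℝ) ≤ D := by exact_mod_cast hlg
  have hDp : 0 < D ^ (k + 1) := Nat.pow_pos (by omega)
  have hLk : (0 : ℝ) < (L : ℝ) ^ k := by positivity
  have h3 := round_close (L ^ k * a) (D ^ (k + 1)) hDp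
  push_cast at h3
  have hDpos : (0 : ℝ) < (D : ℝ) ^ (k + 1) := by exact_mod_cast hDp
  have h4 : 2 * (L : ℝ) ^ k ≤ (D : ℝ) ^ (k + 1) := by
    calc 2 * (L : ℝ) ^ k ≤ D * (D : ℝ) ^ k :=
          mul_le_mul (hL0.trans hDL) (pow_le_pow_left₀ (by linarith) hDL k) (by positivity) (by linarith)
      _ = (D : ℝ) ^ (k + 1) := by ring
  have h5 : 1 / (D : ℝ) ^ (k + 1) ≤ 1 / (2 * (L : ℝ) ^ k) :=
    one_div_le_one_div_of_le (by positivity) h4
  generalize hq : (((2 * (L ^ k * a) + D ^ (k + 1)) / (2 * D ^ (k + 1)) : ℕ) : ℝ) = q at *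
  have h6 : q / (L : ℝ) ^ k - frac n F =
      (q - (L : ℝ) ^ k * a / (D : ℝ) ^ (k + 1)) / (L : ℝ) ^ k +
        ((a : ℝ) / (D : ℝ) ^ (k + 1) - frac n F) := by
    field_simp
    ring
  rw [h6]
  have h7 : |(q - (L : ℝ) ^ k * a / (D : ℝ) ^ (k + 1)) / (L : ℝ) ^ k| ≤ 1 / (2 * (L : ℝ) ^ k) := by
    rw [abs_div, abs_of_pos hLk, div_le_iff₀ hLk]
    have h8 : 1 / (2 * (L : ℝ) ^ k) * (L : ℝ) ^ k = 1 / 2 := by
      field_simp
    rw [h8]
    exact h3
  calc _ ≤ _ := abs_add_le _ _
    _ ≤ 1 / (2 * (L : ℝ) ^ k) + 1 / (2 * (L : ℝ) ^ k) := add_le_add h7 (h1.trans h5)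
    _ = 1 / (L : ℝ) ^ k := by
      field_simp
      norm_num

end Pool.Agent.Helper93.CS
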